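import Pool.Agent.WAP.StmtsC
import Pool.Agent.WAP.Alg

/-!
# Squad WAP, row CLI: multiplication by a fixed Gaussian integer near the point at infinity
-/

set_option autoImplicit false

namespace Pool.Agent.WAP.H47

open Pool.Agent.WAP Pool.Agent.WAP.C Pool.Agent.WAP.G Classical
open WeierstrassCurve WeierstrassCurve.Affine

section cli

variable {F : Type} [NormedField F]

theorem cli_cz_zero : cz (0 : Pt (1 : F)) = 0 := by
  show (0 : F) / 0 = 0
  simp

theorem cli_cX_neg (P : Pt (1 : F)) : cX (-P) = cX P := by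
  rcases P with _ | ⟨X, Y, h⟩
  · rfl
  · rfl

theorem cli_cz_neg (P : Pt (1 : F)) : cz (-P) = -cz P := zc_neg P

theorem cli_mono {r s : ℝ} (h : r ≤ s) {P : Pt (1 : F)} (hP : nO r P) : nO s P := by
  rcases hP with hP | ⟨h1, h2⟩
  · exact Or.inl hP
  · exact Or.inr ⟨h1, h2.trans h⟩

theorem cli_neg {r : ℝ} {P : Pt (1 : F)} (hP : nO r P) : nO r (-P) := by
  rcases hP with hP | ⟨h1, h2⟩
  · left
    rw [hP, neg_zero]
  · right
    rw [cli_cX_neg, cli_cz_neg, norm_neg]
    exact ⟨h1, h2⟩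

variable [Algebra GaussianInt F]

theorem cli_cX_iPt (P : Pt (1 : F)) : cX (iPt P) = -cX P := by
  rcases P with _ | ⟨X, Y, h⟩
  · show (0 : F) = -0
    simp
  · rfl

theorem cli_cz_iPt (P : Pt (1 : F)) : cz (iPt P) = ii F * cz P := zc_iPt P

theorem cli_norm_ii : ‖ii F‖ = 1 := by
  have h := congrArg norm (ii_sq (F := F))
  rw [norm_pow, norm_neg, norm_one] at h
  have h0 := norm_nonneg (ii F)
  nlinarith

theorem cli_iPt {r : ℝ} {P : Pt (1 : F)} (hP : nO r P) : nO r (iPt P) := by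
  rcases hP with hP | ⟨h1, h2⟩
  · left
    rw [hP, iPt_zero]
  · right
    rw [cli_cX_iPt, cli_cz_iPt, norm_neg, norm_mul, cli_norm_ii, one_mul]
    exact ⟨h1, h2⟩

/-- the property of `CLI` for one Gaussian integer -/
def Good (F : Type) [NormedField F] [Algebra GaussianInt F] (a : GaussianInt) : Prop :=
  ∃ C r1 : ℝ, 0 < C ∧ 0 < r1 ∧ ∀ r, 0 < r → r ≤ r1 → ∀ P : Pt (1 : F), nO r P →
    nO (C * r) (sm a P) ∧ ‖cz (sm a P) - algebraMap GaussianInt F a * cz P‖ ≤ C * r ^ 3

theorem good_zero : Good F 0 := by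
  refine ⟨1, 1, one_pos, one_pos, fun r hr _ P _ => ?_⟩
  rw [zero_sm, cli_cz_zero, map_zero, zero_mul, sub_zero, norm_zero]
  exact ⟨Or.inl rfl, by positivity⟩

theorem good_one : Good F 1 := by
  refine ⟨1, 1, one_pos, one_pos, fun r hr _ P hP => ?_⟩
  rw [one_sm, map_one, one_mul, one_mul, sub_self, norm_zero]
  exact ⟨hP, by positivity⟩

theorem good_neg {a : GaussianInt} (h : Good F a) : Good F (-a) := by
  obtain ⟨C, r1, hC, hr1, h⟩ := h
  refine ⟨C, r1, hC, hr1, fun r hr hr2 P hP => ?_⟩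
  obtain ⟨h1, h2⟩ := h r hr hr2 P hP
  rw [neg_sm]
  refine ⟨cli_neg h1, ?_⟩
  rw [cli_cz_neg, map_neg]
  have e : -cz (sm a P) - -(algebraMap GaussianInt F a) * cz P =
      -(cz (sm a P) - algebraMap GaussianInt F a * cz P) := by ring
  rw [e, norm_neg]
  exact h2

theorem good_i_mul {a : GaussianInt} (h : Good F a) : Good F (⟨0, 1⟩ * a) := by
  obtain ⟨C, r1, hC, hr1, h⟩ := h
  refine ⟨C, r1, hC, hr1, fun r hr hr2 P hP => ?_⟩
  obtain ⟨h1, h2⟩ := h r hr hr2 P hP
  rw [mul_sm, i_sm]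
  refine ⟨cli_iPt h1, ?_⟩
  rw [cli_cz_iPt, map_mul]
  have e : ii F * cz (sm a P) - algebraMap GaussianInt F ⟨0, 1⟩ * algebraMap GaussianInt F a * cz P =
      ii F * (cz (sm a P) - algebraMap GaussianInt F a * cz P) := by
    have e2 : algebraMap GaussianInt F ⟨0, 1⟩ = ii F := rfl
    rw [e2]
    ring
  rw [e, norm_mul, cli_norm_ii, one_mul]
  exact h2

theorem good_add (zes : ZesStmt) (hF : IsCx F) {a b : GaussianInt} (ha : Good F a)
    (hb : Good F b) : Good F (a + b) := by
  obtain ⟨A, ra, hA, hra, ha⟩ := ha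
  obtain ⟨B, rb, hB, hrb, hb⟩ := hb
  refine ⟨3 * (A + B) + (A + B) ^ 3, min (min ra rb) (1 / (10 * (A + B))), by positivity,
    lt_min (lt_min hra hrb) (by positivity), fun r hr hr2 P hP => ?_⟩
  have h1 : r ≤ ra := hr2.trans ((min_le_left _ _).trans (min_le_left _ _))
  have h2 : r ≤ rb := hr2.trans ((min_le_left _ _).trans (min_le_right _ _))
  have h3 : r ≤ 1 / (10 * (A + B)) := hr2.trans (min_le_right _ _)
  have h4 : (A + B) * r ≤ 1 / 10 := by
    have h5 : 0 < 10 * (A + B) := by positivity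
    rw [le_div_iff₀ h5] at h3
    linarith
  obtain ⟨p1, p2⟩ := ha r hr h1 P hP
  obtain ⟨q1, q2⟩ := hb r hr h2 P hP
  have hs : 0 < (A + B) * r := by positivity
  have hAr : A * r ≤ (A + B) * r := by nlinarith
  have hBr : B * r ≤ (A + B) * r := by nlinarith
  obtain ⟨z1, z2⟩ := zes F hF ((A + B) * r) hs h4 _ _ (cli_mono hAr p1) (cli_mono hBr q1)
  rw [add_sm]
  have hC3 : 0 < (A + B) ^ 3 := by positivity
  refine ⟨cli_mono ?_ z1, ?_⟩
  · nlinarith
  · rw [map_add]
    have e : cz (sm a P + sm b P) - (algebraMap GaussianInt F a + algebraMap GaussianInt F b) * cz P =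
        (cz (sm a P + sm b P) - cz (sm a P) - cz (sm b P)) +
        ((cz (sm a P) - algebraMap GaussianInt F a * cz P) +
          (cz (sm b P) - algebraMap GaussianInt F b * cz P)) := by ring
    rw [e]
    have hr3 : 0 < r ^ 3 := by positivity
    have k1 : A * r ^ 3 + B * r ^ 3 ≤ 3 * (A + B) * r ^ 3 := by
      have : 0 < (A + B) * r ^ 3 := by positivity
      nlinarith
    calc ‖(cz (sm a P + sm b P) - cz (sm a P) - cz (sm b P)) +
        ((cz (sm a P) - algebraMap GaussianInt F a * cz P) +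
          (cz (sm b P) - algebraMap GaussianInt F b * cz P))‖
        ≤ ((A + B) * r) ^ 3 + (A * r ^ 3 + B * r ^ 3) :=
          (norm_add_le _ _).trans (add_le_add z2 ((norm_add_le _ _).trans (add_le_add p2 q2)))
      _ ≤ (3 * (A + B) + (A + B) ^ 3) * r ^ 3 := by
          rw [mul_pow, add_mul]
          linarith

theorem good_int (zes : ZesStmt) (hF : IsCx F) (n : ℤ) : Good F (n : GaussianInt) := by
  induction n using Int.induction_on with
  | zero => simpa using good_zero
  | succ n ih =>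
    rw [Int.cast_add, Int.cast_one]
    exact good_add zes hF ih good_one
  | pred n ih =>
    rw [Int.cast_sub, Int.cast_one, sub_eq_add_neg]
    exact good_add zes hF ih (good_neg good_one)

end cli

/-- **CLI**. -/
theorem cli (zes : ZesStmt) : CliStmt := by
  intro F _ _ hF a
  have h1 := good_int (F := F) zes hF a.re
  have h2 := good_i_mul (good_int (F := F) zes hF a.im)
  have h3 := good_add zes hF h1 h2
  have e : (a.re : GaussianInt) + ⟨0, 1⟩ * (a.im : GaussianInt) = a := by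
    apply Zsqrtd.ext
    · simp
    · simp
  rw [e] at h3
  exact h3

end Pool.Agent.WAP.H47
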